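import Pool.Agent.D0H90.SM.Stm3

set_option autoImplicit false

/-!
# Common lemmas for TT and PSI (project SM, MP_807a54_ag)
-/

namespace Pool.Agent.D0H84.SM

open MvPolynomial Matrix Pool.Agent.D0H90.SM

universe u

/-! ## Monomials at the basis vectors -/

theorem mon_bas {n d : ℕ} {R : Type u} [CommRing R] (m : Ex n d) (i : Fin n) (h : (m.1 i : ℕ) = d) :
    mon m (bas i : Fin n → R) = 1 := by
  have h0 : ∀ l, l ≠ i → (m.1 l : ℕ) = 0 := by
    intro l hl
    have h1 := m.2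
    rw [← Finset.add_sum_erase _ _ (Finset.mem_univ i), h] at h1
    have h2 : ∑ x ∈ Finset.univ.erase i, (m.1 x : ℕ) = 0 := by omega
    exact Finset.sum_eq_zero_iff.1 h2 l (Finset.mem_erase.2 ⟨hl, Finset.mem_univ l⟩)
  unfold mon
  refine Finset.prod_eq_one fun l _ => ?_
  by_cases hl : l = i
  · subst hl; simp [bas]
  · rw [h0 l hl, pow_zero]

theorem mon_bas_zero {n d : ℕ} {R : Type u} [CommRing R] (m : Ex n d) (i : Fin n)
    (h : (m.1 i : ℕ) ≠ d) : mon m (bas i : Fin n → R) = 0 := by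
  have h0 : ∃ l, l ≠ i ∧ (m.1 l : ℕ) ≠ 0 := by
    by_contra hc
    push Not at hc
    apply h
    have h1 := m.2
    rw [← Finset.add_sum_erase _ _ (Finset.mem_univ i)] at h1
    rw [Finset.sum_eq_zero (fun l hl => hc l (Finset.ne_of_mem_erase hl)), add_zero] at h1
    exact h1
  obtain ⟨l, hl, hm⟩ := h0
  unfold mon
  refine Finset.prod_eq_zero (Finset.mem_univ l) ?_
  rw [show (bas i : Fin n → R) l = 0 from Pi.single_eq_of_ne hl 1]
  exact zero_pow hm

theorem ev_bas {n d : ℕ} {R : Type u} [CommRing R] (g : Cf n d → R) (i j : Fin n) (m : Ex n d)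
    (h : (m.1 i : ℕ) = d) : ev g (bas i) j = g (j, m) := by
  unfold ev
  rw [Finset.sum_eq_single m]
  · rw [mon_bas m i h, mul_one]
  · intro m' _ hm'
    rw [mon_bas_zero m' i, mul_zero]
    intro h'
    apply hm'
    have key : ∀ m : Ex n d, (m.1 i : ℕ) = d → ∀ l, l ≠ i → (m.1 l : ℕ) = 0 := by
      intro m h l hl
      have h1 := m.2
      rw [← Finset.add_sum_erase _ _ (Finset.mem_univ i), h] at h1
      have h2 : ∑ x ∈ Finset.univ.erase i, (m.1 x : ℕ) = 0 := by omega
      exact Finset.sum_eq_zero_iff.1 h2 l (Finset.mem_erase.2 ⟨hl, Finset.mem_univ l⟩)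
    apply Subtype.ext
    funext l
    apply Fin.ext
    by_cases hl : l = i
    · subst hl; rw [h, h']
    · rw [key m h l hl, key m' h' l hl]
  · intro h; exact absurd (Finset.mem_univ m) h

theorem ev_glue {n d : ℕ} {R : Type u} [CommRing R] (c : Cf n d → R) (z : Rest n d → R) (i : Fin n) :
    ev (glue c z) (bas i) = ev c (bas i) := by
  funext j
  unfold ev
  refine Finset.sum_congr rfl fun m _ => ?_
  by_cases h : (m.1 i : ℕ) = d
  · congr 1
    unfold glue
    rw [dif_pos ⟨i, h⟩]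
  · rw [mon_bas_zero m i h, mul_zero, mul_zero]

theorem ev_smul {n d : ℕ} {R : Type u} [CommRing R] (c : Cf n d → R) (r : R) (x : Fin n → R) :
    ev c (r • x) = r ^ d • ev c x := by
  funext i
  simp only [ev, Pi.smul_apply, smul_eq_mul, Finset.mul_sum]
  refine Finset.sum_congr rfl fun m _ => ?_
  have : mon m (r • x) = r ^ d * mon m x := by
    have h1 : r ^ d = ∏ l, r ^ (m.1 l : ℕ) := by
      rw [Finset.prod_pow_eq_pow_sum]
      exact congrArg (fun e => r ^ e) m.2.symm
    unfold mon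
    rw [h1, ← Finset.prod_mul_distrib]
    refine Finset.prod_congr rfl fun l _ => ?_
    rw [Pi.smul_apply, smul_eq_mul, mul_pow]
  rw [this]; ring

theorem map_bas {n : ℕ} {R S : Type u} [CommRing R] [CommRing S] (φ : R →+* S) (i : Fin n) :
    (fun l => φ ((bas i : Fin n → R) l)) = (bas i : Fin n → S) := by
  funext l
  by_cases h : l = i
  · subst h; simp [bas]
  · rw [show (bas i : Fin n → R) l = 0 from Pi.single_eq_of_ne h 1,
      show (bas i : Fin n → S) l = 0 from Pi.single_eq_of_ne h 1, map_zero]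

/-! ## Conjugation -/

theorem conj_smul {n d : ℕ} {R : Type u} [CommRing R] (A A' : Matrix (Fin n) (Fin n) R) (r : R)
    (c : Cf n d → R) (a : Cf n d) : conj A (r • A') c a = r * conj A A' c a := by
  unfold conj
  rw [Finset.mul_sum]
  refine Finset.sum_congr rfl fun j _ => ?_
  rw [Matrix.smul_apply, smul_eq_mul, mul_assoc]

theorem conj_conj (hB : S_BASE.{u}) {n d : ℕ} {K : Type u} [Field K] [Infinite K]
    (A A' B B' : Matrix (Fin n) (Fin n) K) (f : Cf n d → K) :
    conj B B' (conj A A' f) = conj (A * B) (B' * A') f := by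
  refine hB.2.1 K n d _ _ fun x => ?_
  rw [hB.1, hB.1, hB.1, Matrix.mulVec_mulVec, Matrix.mulVec_mulVec]

theorem conj_one (hB : S_BASE.{u}) {n d : ℕ} {K : Type u} [Field K] [Infinite K]
    (f : Cf n d → K) : conj 1 1 f = f := by
  refine hB.2.1 K n d _ _ fun x => ?_
  rw [hB.1, Matrix.one_mulVec, Matrix.one_mulVec]

theorem adj_eq {n : ℕ} {R : Type u} [CommRing R] (A A' : Matrix (Fin n) (Fin n) R) (h : A * A' = 1) :
    A.adjugate = A.det • A' := by
  calc A.adjugate = A.adjugate * (A * A') := by rw [h, mul_one]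
    _ = (A.adjugate * A) * A' := by rw [mul_assoc]
    _ = A.det • A' := by rw [Matrix.adjugate_mul, Matrix.smul_mul, one_mul]

theorem conj_adj (hB : S_BASE.{u}) {n d : ℕ} {K : Type u} [Field K] [Infinite K]
    (A A' B : Matrix (Fin n) (Fin n) K) (h : A * A' = 1) (f : Cf n d → K) (a : Cf n d) :
    conj (A * B) (A * B).adjugate f a = A.det * conj B B.adjugate (conj A A' f) a := by
  rw [Matrix.adjugate_mul_distrib, adj_eq A A' h, Matrix.mul_smul, conj_smul, conj_conj hB]

theorem conj_map (hB : S_BASE.{u}) {n d : ℕ} {R S : Type u} [CommRing R] [CommRing S] (φ : R →+* S)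
    (c : Cf n d → R) (A A' : Matrix (Fin n) (Fin n) R) :
    conj (A.map φ) (A'.map φ) (fun a => φ (c a)) = fun a => φ (conj A A' c a) :=
  hB.2.2.2.2.1 R S φ n d c A A'

theorem ev_map (hB : S_BASE.{u}) {n d : ℕ} {R S : Type u} [CommRing R] [CommRing S] (φ : R →+* S)
    (c : Cf n d → R) (x : Fin n → R) :
    ev (fun a => φ (c a)) (fun l => φ (x l)) = fun i => φ (ev c x i) :=
  hB.2.2.1 R S φ n d c x

/-! ## The homogenised polynomial -/

/-- `D^N R(w / D)`. -/
noncomputable def Rh {ι : Type} {k Ω : Type u} [Field k] [CommRing Ω] (κ : k →+* Ω)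
    (R : MvPolynomial ι k) (N : ℕ) (w : ι → Ω) (D : Ω) : Ω :=
  ∑ m ∈ R.support, κ (coeff m R) * (∏ i ∈ m.support, w i ^ m i) *
    D ^ (N - ∑ i ∈ m.support, m i)

theorem Rh_map {ι : Type} {k Ω Ω' : Type u} [Field k] [CommRing Ω] [CommRing Ω'] (κ : k →+* Ω)
    (φ : Ω →+* Ω') (R : MvPolynomial ι k) (N : ℕ) (w : ι → Ω) (D : Ω) :
    φ (Rh κ R N w D) = Rh (φ.comp κ) R N (fun i => φ (w i)) (φ D) := by
  unfold Rh
  simp only [map_sum, map_mul, map_prod, map_pow, RingHom.comp_apply]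

theorem Rh_zero {ι : Type} {k Ω : Type u} [Field k] [CommRing Ω] (κ : k →+* Ω)
    (R : MvPolynomial ι k) (N : ℕ) (w : ι → Ω) (h : R.totalDegree < N) : Rh κ R N w 0 = 0 := by
  unfold Rh
  refine Finset.sum_eq_zero fun m hm => ?_
  have h1 : ∑ i ∈ m.support, m i ≤ R.totalDegree := le_totalDegree hm
  rw [zero_pow (by omega), mul_zero]

theorem Rh_scale {ι : Type} {k Ω : Type u} [Field k] [CommRing Ω] (κ : k →+* Ω)
    (R : MvPolynomial ι k) (N : ℕ) (w : ι → Ω) (D t : Ω) (h : R.totalDegree < N) :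
    Rh κ R N (fun i => t * w i) (t * D) = t ^ N * Rh κ R N w D := by
  unfold Rh
  rw [Finset.mul_sum]
  refine Finset.sum_congr rfl fun m hm => ?_
  have h1 : ∑ i ∈ m.support, m i ≤ R.totalDegree := le_totalDegree hm
  have h2 : ∏ i ∈ m.support, (t * w i) ^ m i =
      t ^ (∑ i ∈ m.support, m i) * ∏ i ∈ m.support, w i ^ m i := by
    rw [← Finset.prod_pow_eq_pow_sum, ← Finset.prod_mul_distrib]
    exact Finset.prod_congr rfl fun i _ => mul_pow _ _ _
  have h3 : t ^ N = t ^ (∑ i ∈ m.support, m i) * t ^ (N - ∑ i ∈ m.support, m i) := by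
    rw [← pow_add]; congr 1; omega
  rw [h2, mul_pow, h3]
  ring

theorem Rh_inv {ι : Type} {k Ω : Type u} [Field k] [Field Ω] (κ : k →+* Ω)
    (R : MvPolynomial ι k) (N : ℕ) (w : ι → Ω) (D : Ω) (hD : D ≠ 0) (h : R.totalDegree < N) :
    Rh κ R N w D = eval₂ κ (fun i => D⁻¹ * w i) R * D ^ N := by
  have h1 := Rh_scale κ R N (fun i => D⁻¹ * w i) 1 D h
  have h2 : (fun i => D * (D⁻¹ * w i)) = w := by
    funext i; rw [mul_inv_cancel_left₀ hD]
  rw [h2, mul_one] at h1
  rw [h1, mul_comm]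
  congr 1
  unfold Rh
  rw [eval₂_eq]
  refine Finset.sum_congr rfl fun m _ => ?_
  rw [one_pow, mul_one]

/-- The element `ψ(E)`. -/
noncomputable def psi {n d : ℕ} {k Ω : Type u} [Field k] [CommRing Ω] (κ : k →+* Ω)
    (R : MvPolynomial (Rest n d) k) (N M : ℕ) (f : Cf n d → Ω) (t : Ω)
    (E : Matrix (Fin n) (Fin n) Ω) : Ω :=
  Rh κ R N (fun ρ => conj E E.adjugate f ρ.1) E.det * t ^ M

theorem psi_map (hB : S_BASE.{u}) {n d : ℕ} {k Ω Ω' : Type u} [Field k] [CommRing Ω] [CommRing Ω']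
    (κ : k →+* Ω) (φ : Ω →+* Ω') (R : MvPolynomial (Rest n d) k) (N M : ℕ) (f : Cf n d → Ω) (t : Ω)
    (E : Matrix (Fin n) (Fin n) Ω) :
    φ (psi κ R N M f t E) = psi (φ.comp κ) R N M (fun a => φ (f a)) (φ t) (E.map φ) := by
  unfold psi
  rw [map_mul, map_pow, Rh_map]
  have h1 : φ E.det = (E.map φ).det := RingHom.map_det φ E
  have h2 : (E.map φ).adjugate = E.adjugate.map φ := (RingHom.map_adjugate φ E).symm
  rw [h1, h2, conj_map hB]

theorem psi_act (hB : S_BASE.{u}) {n d : ℕ} {k Ω : Type u} [Field k] [Field Ω] [Infinite Ω]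
    (κ : k →+* Ω) (R : MvPolynomial (Rest n d) k) (b M : ℕ) (f : Cf n d → Ω) (t : Ω)
    (A A' B : Matrix (Fin n) (Fin n) Ω) (h : A * A' = 1) (hR : R.totalDegree < b * M) :
    psi κ R (b * M) M f t (A * B) = psi κ R (b * M) M (conj A A' f) (A.det ^ b * t) B := by
  unfold psi
  have h1 : (fun ρ : Rest n d => conj (A * B) (A * B).adjugate f ρ.1) =
      fun ρ => A.det * conj B B.adjugate (conj A A' f) ρ.1 := by
    funext ρ; exact conj_adj hB A A' B h f ρ.1
  rw [h1, Matrix.det_mul, Rh_scale _ _ _ _ _ _ hR, mul_pow, ← pow_mul]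
  ring

theorem psi_inv {n d : ℕ} {k Ω : Type u} [Field k] [Field Ω]
    (κ : k →+* Ω) (R : MvPolynomial (Rest n d) k) (N M : ℕ) (f : Cf n d → Ω) (t : Ω)
    (E : Matrix (Fin n) (Fin n) Ω) (hE : E.det ≠ 0) (hR : R.totalDegree < N) :
    psi κ R N M f t E = eval₂ κ (fun ρ => conj E E⁻¹ f ρ.1) R * E.det ^ N * t ^ M := by
  unfold psi
  rw [Rh_inv _ _ _ _ _ hE hR]
  congr 3
  funext ρ
  rw [← conj_smul]
  congr 1
  rw [Matrix.inv_def, Ring.inverse_eq_inv']

/-! ## The generic point -/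

section generic

variable {k : Type u} [Field k] {n d : ℕ}

/-- The generic matrix over `PP`. -/
noncomputable def gen0 (n d : ℕ) (k : Type u) [Field k] : Matrix (Fin n) (Fin n) (PP n d k) :=
  Matrix.of fun i j => X (Sum.inl (i, j))

theorem genE_eq (n d : ℕ) (k : Type u) [Field k] :
    genE n d k = (gen0 n d k).map (algebraMap (PP n d k) (LL n d k)) := rfl

theorem evalOne_gen0 (w : Rest n d → k) : (gen0 n d k).map (evalOne w) = 1 := by
  ext i j
  rw [Matrix.map_apply, gen0, Matrix.of_apply, evalOne, eval_X, Matrix.one_apply]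
  rfl

theorem det_gen0 (w : Rest n d → k) : evalOne w (gen0 n d k).det = 1 := by
  have h : evalOne w (gen0 n d k).det = ((gen0 n d k).map (evalOne w)).det := RingHom.map_det _ _
  rw [h, evalOne_gen0, Matrix.det_one]

theorem det_genE : (genE n d k).det ≠ 0 := by
  have h : (genE n d k).det = algebraMap (PP n d k) (LL n d k) (gen0 n d k).det := by
    rw [genE_eq]; exact (RingHom.map_det _ _).symm
  rw [h]
  intro h0
  have h1 : (gen0 n d k).det = 0 :=
    (IsFractionRing.injective (PP n d k) (LL n d k)) (by rw [h0, map_zero])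
  have h2 := det_gen0 (0 : Rest n d → k)
  rw [h1, map_zero] at h2
  exact zero_ne_one h2

/-- The generic matrix over `OM`. -/
noncomputable def genO (n d : ℕ) (k : Type u) [Field k] : Matrix (Fin n) (Fin n) (OM n d k) :=
  (genE n d k).map (algebraMap (LL n d k) (OM n d k))

theorem ev_geny (hB : S_BASE.{u}) (c : Cf n d → k) (i : Fin n) :
    ev (geny c) (bas i) = fun j => algebraMap k (LL n d k) (ev c (bas i) j) := by
  have h1 := ev_map hB (algebraMap (PP n d k) (LL n d k))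
    (glue (fun a => (C (c a) : PP n d k)) (fun ρ => X (Sum.inr ρ))) (bas i)
  rw [map_bas, ev_glue] at h1
  have h2 := ev_map hB (C : k →+* PP n d k) c (bas i)
  rw [map_bas] at h2
  rw [h2] at h1
  have h3 : geny c = fun a => algebraMap (PP n d k) (LL n d k)
    (glue (fun a => (C (c a) : PP n d k)) (fun ρ => X (Sum.inr ρ)) a) := rfl
  rw [h3, h1]
  funext j
  rw [IsScalarTower.algebraMap_apply k (PP n d k) (LL n d k)]
  rfl

theorem sol_gen (hB : S_BASE.{u}) (c : Cf n d → k) : Sol c (genO n d k) := by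
  intro i
  have h1 := ev_map hB (algebraMap (LL n d k) (OM n d k)) (genfL c) (fun l => genE n d k l i)
  have h2 : (fun l => genO n d k l i) =
      fun l => algebraMap (LL n d k) (OM n d k) (genE n d k l i) := rfl
  have h3 : genf c = fun a => algebraMap (LL n d k) (OM n d k) (genfL c a) := rfl
  have h4 : ev (genfL c) (fun l => genE n d k l i) =
      genE n d k *ᵥ fun j => algebraMap k (LL n d k) (ev c (bas i) j) := by
    unfold genfL
    rw [hB.1]
    have h5 : (genE n d k)⁻¹ *ᵥ (fun l => genE n d k l i) = bas i := by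
      have h6 : (fun l => genE n d k l i) = genE n d k *ᵥ bas i := by
        rw [Matrix.mulVec_single_one]; rfl
      rw [h6, Matrix.mulVec_mulVec, Matrix.nonsing_inv_mul _ (isUnit_iff_ne_zero.2 det_genE),
        Matrix.one_mulVec]
    rw [h5, ev_geny hB]
  rw [h2, h3, h1, h4]
  funext j
  simp only [Matrix.mulVec, dotProduct, map_sum, map_mul]
  refine Finset.sum_congr rfl fun l _ => ?_
  rw [← IsScalarTower.algebraMap_apply k (LL n d k) (OM n d k)]
  rfl

theorem thetaO_eq (c : Cf n d → k) (P : Pol n d k) : thetaO c P = aeval (genf c) P := by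
  unfold thetaO theta
  exact comp_aeval_apply (genfL c) (IsScalarTower.toAlgHom k (LL n d k) (OM n d k)) P

theorem thetaO_X (c : Cf n d → k) (a : Cf n d) : thetaO c (X a) = genf c a := by
  rw [thetaO_eq, aeval_X]

theorem thetaO_mul (c : Cf n d → k) (P Q : Pol n d k) :
    thetaO c (P * Q) = thetaO c P * thetaO c Q := by
  rw [thetaO_eq, thetaO_eq, thetaO_eq, map_mul]

/-- The image of the matrix `A` over `k`. -/
noncomputable abbrev im (A : Matrix (Fin n) (Fin n) k) : Matrix (Fin n) (Fin n) (OM n d k) :=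
  A.map (algebraMap k (OM n d k))

theorem im_mul (A A' : Matrix (Fin n) (Fin n) k) (h : A * A' = 1) :
    (im A : Matrix (Fin n) (Fin n) (OM n d k)) * im A' = 1 := by
  have h1 : (A * A').map (algebraMap k (OM n d k)) =
      (1 : Matrix (Fin n) (Fin n) k).map (algebraMap k (OM n d k)) :=
    congrArg (fun B : Matrix (Fin n) (Fin n) k => B.map (algebraMap k (OM n d k))) h
  rw [Matrix.map_mul] at h1
  rw [h1]
  exact Matrix.map_one _ (map_zero _) (map_one _)

theorem im_det (A : Matrix (Fin n) (Fin n) k) :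
    (im A : Matrix (Fin n) (Fin n) (OM n d k)).det = algebraMap k (OM n d k) A.det :=
  (RingHom.map_det _ _).symm

theorem sol_act (hB : S_BASE.{u}) (c : Cf n d → k) (A A' : Matrix (Fin n) (Fin n) k)
    (h : A * A' = 1) (σ : OM n d k ≃+* OM n d k) (hσ : SymA c A A' σ)
    (E : Matrix (Fin n) (Fin n) (OM n d k)) (hE : Sol c E) : Sol c (im A * E.map σ) := by
  intro i
  have h1 := ev_map hB (σ : OM n d k →+* OM n d k) (genf c) (fun l => E l i)
  have h2 : (fun a => (σ : OM n d k →+* OM n d k) (genf c a)) = conj (im A) (im A') (genf c) := by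
    funext a; exact hσ.2 a
  rw [h2, hB.1, hE i] at h1
  have h3 : (fun i' => (σ : OM n d k →+* OM n d k)
      ((E *ᵥ fun j => algebraMap k (OM n d k) (ev c (bas i) j)) i')) =
      E.map σ *ᵥ fun j => algebraMap k (OM n d k) (ev c (bas i) j) := by
    funext i'
    simp only [Matrix.mulVec, dotProduct, map_sum, map_mul, Matrix.map_apply]
    refine Finset.sum_congr rfl fun l _ => ?_
    congr 1
    exact hσ.1 _
  rw [h3] at h1
  have h4 := congrArg (fun v => im A *ᵥ v) h1
  simp only [Matrix.mulVec_mulVec] at h4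
  rw [im_mul A A' h, Matrix.one_mulVec] at h4
  exact h4

/-! ## Semi-invariance -/

/-- The polynomial `v ↦ P(v^A)`. -/
noncomputable def pc (A A' : Matrix (Fin n) (Fin n) k) (P : Pol n d k) : Pol n d k :=
  aeval (conj (A.map (C : k →+* Pol n d k)) (A'.map (C : k →+* Pol n d k)) X) P

theorem aeval_pc (hB : S_BASE.{u}) {S : Type u} [CommRing S] [Algebra k S]
    (A A' : Matrix (Fin n) (Fin n) k) (P : Pol n d k) (c : Cf n d → S) :
    aeval c (pc A A' P) = aeval (conj (A.map (algebraMap k S)) (A'.map (algebraMap k S)) c) P := by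
  unfold pc
  rw [comp_aeval_apply]
  have h1 := conj_map hB (aeval c : Pol n d k →ₐ[k] S).toRingHom (X : Cf n d → Pol n d k)
    (A.map (C : k →+* Pol n d k)) (A'.map (C : k →+* Pol n d k))
  have h2 : ∀ B : Matrix (Fin n) (Fin n) k, (B.map (C : k →+* Pol n d k)).map
      (aeval c : Pol n d k →ₐ[k] S).toRingHom = B.map (algebraMap k S) := by
    intro B; ext i j
    simp only [Matrix.map_apply]
    exact aeval_C c (B i j)
  have h3 : (fun a => (aeval c : Pol n d k →ₐ[k] S).toRingHom ((X : Cf n d → Pol n d k) a)) = c := by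
    funext a; exact aeval_X c a
  rw [h2, h2, h3] at h1
  rw [h1]
  rfl

theorem semi_poly (hB : S_BASE.{u}) [Infinite k] {b : ℕ} {P Q : Pol n d k} (h : Semi b P Q)
    (A A' : Matrix (Fin n) (Fin n) k) (hA : A * A' = 1) :
    P * pc A A' Q = C (A.det ^ b) * (pc A A' P * Q) := by
  refine MvPolynomial.funext fun c => ?_
  have h1 : ∀ F : Pol n d k, eval c (pc A A' F) = eval (conj A A' c) F := by
    intro F
    have h2 := aeval_pc hB (S := k) A A' F c
    have h3 : ∀ (g : Cf n d → k) (G : Pol n d k), aeval g G = eval g G := by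
      intro g G
      rw [aeval_def, Algebra.algebraMap_self]
      rfl
    have h4 : ∀ B : Matrix (Fin n) (Fin n) k, B.map (algebraMap k k) = B := by
      intro B; ext i j; rfl
    rw [h3, h3, h4, h4] at h2
    exact h2
  rw [map_mul, map_mul, map_mul, eval_C, h1, h1]
  exact h A A' hA c

theorem sym_theta (hB : S_BASE.{u}) (c : Cf n d → k) (A A' : Matrix (Fin n) (Fin n) k)
    (σ : OM n d k ≃+* OM n d k) (hσ : SymA c A A' σ) (P : Pol n d k) :
    σ (thetaO c P) = thetaO c (pc A A' P) := by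
  rw [thetaO_eq, thetaO_eq, aeval_pc hB]
  have h1 : (σ : OM n d k → OM n d k) (aeval (genf c) P) =
      (σ : OM n d k →+* OM n d k) (eval₂ (algebraMap k (OM n d k)) (genf c) P) := rfl
  rw [h1, ← MvPolynomial.coe_eval₂Hom, MvPolynomial.map_eval₂Hom]
  rw [aeval_def, ← MvPolynomial.coe_eval₂Hom]
  congr 1
  congr 1
  · ext t; exact hσ.1 t
  · funext a; exact hσ.2 a

/-- `1/T(f)`. -/
noncomputable def tt (c : Cf n d → k) (T1 T2 : Pol n d k) : OM n d k :=
  thetaO c T2 * (thetaO c T1)⁻¹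

theorem sym_tt (hB : S_BASE.{u}) [Infinite k] (c : Cf n d → k) (A A' : Matrix (Fin n) (Fin n) k)
    (hA : A * A' = 1) (σ : OM n d k ≃+* OM n d k) (hσ : SymA c A A' σ) {b : ℕ} {T1 T2 : Pol n d k}
    (h : Semi b T1 T2) (h1 : thetaO c T1 ≠ 0) :
    σ (tt c T1 T2) = algebraMap k (OM n d k) A.det ^ b * tt c T1 T2 := by
  unfold tt
  have h2 := semi_poly hB h A A' hA
  have h3 := congrArg (thetaO c) h2
  rw [thetaO_mul, thetaO_mul, thetaO_mul, ← sym_theta hB c A A' σ hσ,
    ← sym_theta hB c A A' σ hσ] at h3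
  have h4 : thetaO c (C (A.det ^ b) : Pol n d k) = algebraMap k (OM n d k) A.det ^ b := by
    rw [thetaO_eq, aeval_C, map_pow]
  rw [h4] at h3
  have h5 : σ (thetaO c T1) ≠ 0 := by
    intro h0; exact h1 ((map_eq_zero_iff σ σ.injective).1 h0)
  rw [map_mul, map_inv₀]
  field_simp
  linear_combination h3

/-! ## Places -/

theorem ov_le (hO : S_OVP.{u}) [CharZero k] (c : Cf n d → k) (w : Rest n d → k) (pl : Place w) :
    Ov c (glue c w) ≤ pl.ring := by
  unfold Ov
  rw [Subring.closure_le]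
  rintro x (⟨P, rfl⟩ | ⟨Q, hQ, rfl⟩)
  · exact (hO k n d c w pl P).1
  · exact (hO k n d c w pl Q).2.2 hQ

theorem int_mem {w : Rest n d → k} (pl : Place w) (S : Subring (OM n d k)) (hS : S ≤ pl.ring)
    (x : OM n d k) (hx : IsIntegral S x) : x ∈ pl.ring := by
  apply pl.closed
  obtain ⟨p, hp, h⟩ := hx
  refine ⟨p.map (Subring.inclusion hS), hp.map _, ?_⟩
  rw [Polynomial.eval₂_map]
  exact h

theorem genf_mem (hO : S_OVP.{u}) [CharZero k] (c : Cf n d → k) (w : Rest n d → k)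
    (pl : Place w) (a : Cf n d) :
    ∃ h : genf c a ∈ pl.ring, pl.hom ⟨_, h⟩ = glue c w a := by
  obtain ⟨h, h1, _⟩ := hO k n d c w pl (X a)
  have h2 : ∀ x (hx : x ∈ pl.ring), x = genf c a → pl.hom ⟨x, hx⟩ = glue c w a →
      ∃ h : genf c a ∈ pl.ring, pl.hom ⟨_, h⟩ = glue c w a := by
    intro x hx hxe hh; subst hxe; exact ⟨hx, hh⟩
  refine h2 _ h (thetaO_X c a) ?_
  rw [h1, eval_X]

theorem const_mem {w : Rest n d → k} (pl : Place w) (t : k) :
    ∃ h : algebraMap k (OM n d k) t ∈ pl.ring, pl.hom ⟨_, h⟩ = t := by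
  have h1 := pl.mem (C t)
  have h2 := pl.eq (C t)
  have h3 : ∀ x (hx : x ∈ pl.ring), x = algebraMap k (OM n d k) t → pl.hom ⟨x, hx⟩ = t →
      ∃ h : algebraMap k (OM n d k) t ∈ pl.ring, pl.hom ⟨_, h⟩ = t := by
    intro x hx hxe hh; subst hxe; exact ⟨hx, hh⟩
  refine h3 _ h1 ?_ ?_
  · rw [IsScalarTower.algebraMap_apply k (LL n d k) (OM n d k),
      IsScalarTower.algebraMap_apply k (PP n d k) (LL n d k)]
    rfl
  · rw [h2, evalOne, eval_C]

theorem tt_mem (hO : S_OVP.{u}) [CharZero k] (c : Cf n d → k) (w : Rest n d → k)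
    (pl : Place w) (T1 T2 : Pol n d k) (h1 : eval (glue c w) T1 ≠ 0) :
    thetaO c T1 ≠ 0 ∧ ∃ h : tt c T1 T2 ∈ pl.ring,
      pl.hom ⟨_, h⟩ = eval (glue c w) T2 / eval (glue c w) T1 := by
  obtain ⟨a1, a2, a3⟩ := hO k n d c w pl T1
  obtain ⟨b1, b2, _⟩ := hO k n d c w pl T2
  have h0 : thetaO c T1 ≠ 0 := by
    intro h0
    apply h1
    rw [← a2]
    have : (⟨thetaO c T1, a1⟩ : pl.ring) = 0 := Subtype.ext h0
    rw [this, map_zero]
  refine ⟨h0, pl.ring.mul_mem b1 (a3 h1), ?_⟩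
  have h2 : (⟨tt c T1 T2, pl.ring.mul_mem b1 (a3 h1)⟩ : pl.ring) * ⟨thetaO c T1, a1⟩ =
      ⟨thetaO c T2, b1⟩ := by
    apply Subtype.ext
    show tt c T1 T2 * thetaO c T1 = thetaO c T2
    unfold tt
    rw [mul_assoc, inv_mul_cancel₀ h0, mul_one]
  have h3 := congrArg pl.hom h2
  rw [map_mul, a2, b2] at h3
  rw [← h3, mul_div_cancel_right₀ _ h1]

/-- The constants in the ring of a place. -/
noncomputable def kap {w : Rest n d → k} (pl : Place w) : k →+* pl.ring :=
  (algebraMap k (OM n d k)).codRestrict pl.ring fun t => (const_mem pl t).1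

theorem kap_hom {w : Rest n d → k} (pl : Place w) : pl.hom.comp (kap pl) = RingHom.id k := by
  ext t
  exact (const_mem pl t).2

theorem kap_sub {w : Rest n d → k} (pl : Place w) :
    (pl.ring.subtype).comp (kap pl) = algebraMap k (OM n d k) := by
  ext t; rfl

theorem spec_psi (hB : S_BASE.{u}) (hO : S_OVP.{u}) [CharZero k] (c : Cf n d → k)
    (w : Rest n d → k) (pl : Place w) (R : MvPolynomial (Rest n d) k) (N M : ℕ) (t : OM n d k)
    (ht : t ∈ pl.ring) (E : Matrix (Fin n) (Fin n) (OM n d k)) (hE : ∀ l i, E l i ∈ pl.ring) :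
    ∃ h : psi (algebraMap k (OM n d k)) R N M (genf c) t E ∈ pl.ring,
      pl.hom ⟨_, h⟩ = psi (RingHom.id k) R N M (glue c w) (pl.hom ⟨t, ht⟩)
        (Matrix.of fun l i => pl.hom ⟨E l i, hE l i⟩) := by
  have h1 := psi_map hB (kap pl) pl.ring.subtype R N M
    (fun a => ⟨genf c a, (genf_mem hO c w pl a).1⟩) ⟨t, ht⟩
    (Matrix.of fun l i => (⟨E l i, hE l i⟩ : pl.ring))
  rw [kap_sub] at h1
  have h2 := psi_map hB (kap pl) pl.hom R N M
    (fun a => ⟨genf c a, (genf_mem hO c w pl a).1⟩) ⟨t, ht⟩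
    (Matrix.of fun l i => (⟨E l i, hE l i⟩ : pl.ring))
  rw [kap_hom] at h2
  have h3 : (fun a => pl.hom ⟨genf c a, (genf_mem hO c w pl a).1⟩) = glue c w := by
    funext a; exact (genf_mem hO c w pl a).2
  rw [h3] at h2
  have h4 : psi (algebraMap k (OM n d k)) R N M (genf c) t E =
      pl.ring.subtype (psi (kap pl) R N M (fun a => ⟨genf c a, (genf_mem hO c w pl a).1⟩) ⟨t, ht⟩
        (Matrix.of fun l i => (⟨E l i, hE l i⟩ : pl.ring))) := h1.symm
  refine ⟨by rw [h4]; exact (psi (kap pl) R N M (fun a => ⟨genf c a, (genf_mem hO c w pl a).1⟩)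
    ⟨t, ht⟩ (Matrix.of fun l i => (⟨E l i, hE l i⟩ : pl.ring))).2, ?_⟩
  have h5 : (⟨psi (algebraMap k (OM n d k)) R N M (genf c) t E, by
      rw [h4]; exact (psi (kap pl) R N M (fun a => ⟨genf c a, (genf_mem hO c w pl a).1⟩)
        ⟨t, ht⟩ (Matrix.of fun l i => (⟨E l i, hE l i⟩ : pl.ring))).2⟩ : pl.ring) =
      psi (kap pl) R N M (fun a => ⟨genf c a, (genf_mem hO c w pl a).1⟩) ⟨t, ht⟩
        (Matrix.of fun l i => (⟨E l i, hE l i⟩ : pl.ring)) := Subtype.ext h4
  rw [h5, h2]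
  rfl

end generic

end Pool.Agent.D0H84.SM
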