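import Pool.Agent.D0H84.SM.Sym

set_option autoImplicit false

/-!
# PSI (project SM, MP_807a54_ag)
-/

namespace Pool.Agent.D0H84.SM

open MvPolynomial Matrix Pool.Agent.D0H90.SM

universe u

variable {k : Type u} [Field k] {n d : ℕ}

theorem sol_fin (hF : S_FINS.{u}) (hd : 2 ≤ d) (c : Cf n d → k) (hs : Strong (genf c)) :
    {E : Matrix (Fin n) (Fin n) (OM n d k) | Sol c E}.Finite :=
  hF (OM n d k) n d hd (genf c) hs (Matrix.of fun j i => algebraMap k (OM n d k) (ev c (bas i) j))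

theorem psi_mem (hB : S_BASE.{u}) {Ω : Type u} [CommRing Ω] (κ : k →+* Ω) (S : Subring Ω)
    (R : MvPolynomial (Rest n d) k) (N M : ℕ) (f : Cf n d → Ω) (t : Ω)
    (E : Matrix (Fin n) (Fin n) Ω) (hκ : ∀ x, κ x ∈ S) (hf : ∀ a, f a ∈ S) (ht : t ∈ S)
    (hE : ∀ l i, E l i ∈ S) : psi κ R N M f t E ∈ S := by
  have h1 := psi_map hB (κ.codRestrict S hκ) S.subtype R N M (fun a => (⟨f a, hf a⟩ : S)) ⟨t, ht⟩
    (Matrix.of fun l i => (⟨E l i, hE l i⟩ : S))
  have h2 : psi κ R N M f t E = S.subtype (psi (κ.codRestrict S hκ) R N M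
      (fun a => (⟨f a, hf a⟩ : S)) ⟨t, ht⟩ (Matrix.of fun l i => (⟨E l i, hE l i⟩ : S))) :=
    h1.symm
  rw [h2]
  exact (psi (κ.codRestrict S hκ) R N M
      (fun a => (⟨f a, hf a⟩ : S)) ⟨t, ht⟩ (Matrix.of fun l i => (⟨E l i, hE l i⟩ : S))).2

/-- The subring of the elements integral over `S`. -/
noncomputable def ic {K : Type u} [CommRing K] (S : Subring K) : Subring K :=
  (integralClosure S K).toSubring

theorem mem_ic {K : Type u} [CommRing K] (S : Subring K) (x : K) : x ∈ ic S ↔ IsIntegral S x :=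
  Iff.rfl

theorem le_ic {K : Type u} [CommRing K] (S : Subring K) (x : K) (hx : x ∈ S) : x ∈ ic S := by
  rw [mem_ic]
  exact isIntegral_algebraMap (R := S) (x := ⟨x, hx⟩)

theorem theta_ov (c v : Cf n d → k) (P : Pol n d k) : thetaO c P ∈ Ov c v :=
  Subring.subset_closure (Or.inl ⟨P, rfl⟩)

theorem inv_ov (c v : Cf n d → k) (Q : Pol n d k) (h : eval v Q ≠ 0) : (thetaO c Q)⁻¹ ∈ Ov c v :=
  Subring.subset_closure (Or.inr ⟨Q, h, rfl⟩)

theorem psi_int (hB : S_BASE.{u}) (c v : Cf n d → k)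
    (R : MvPolynomial (Rest n d) k) (N M : ℕ) (T1 T2 : Pol n d k) (hT : eval v T1 ≠ 0)
    (E : Matrix (Fin n) (Fin n) (OM n d k)) (hE : ∀ l i, IsIntegral (Ov c v) (E l i)) :
    psi (algebraMap k (OM n d k)) R N M (genf c) (tt c T1 T2) E ∈ ic (Ov c v) := by
  refine psi_mem hB _ _ _ _ _ _ _ _ ?_ ?_ ?_ ?_
  · intro x
    apply le_ic
    have h1 := theta_ov c v (C x)
    rw [thetaO_eq, aeval_C] at h1
    exact h1
  · intro a
    apply le_ic
    rw [← thetaO_X]
    exact theta_ov c v _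
  · apply le_ic
    exact (Ov c v).mul_mem (theta_ov c v T2) (inv_ov c v T1 hT)
  · exact hE

theorem psi_sym (hB : S_BASE.{u}) [Infinite k] [Infinite (OM n d k)] (c : Cf n d → k)
    (R : MvPolynomial (Rest n d) k) (b M : ℕ) (hR : R.totalDegree < b * M)
    (T1 T2 : Pol n d k) (hT : Semi b T1 T2) (h1 : thetaO c T1 ≠ 0)
    (A A' : Matrix (Fin n) (Fin n) k) (hA : A * A' = 1) (σ : OM n d k ≃+* OM n d k)
    (hσ : SymA c A A' σ) (E : Matrix (Fin n) (Fin n) (OM n d k)) :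
    σ (psi (algebraMap k (OM n d k)) R (b * M) M (genf c) (tt c T1 T2) E) =
      psi (algebraMap k (OM n d k)) R (b * M) M (genf c) (tt c T1 T2) (im A * E.map σ) := by
  have h2 := psi_map hB (algebraMap k (OM n d k)) (σ : OM n d k →+* OM n d k) R (b * M) M (genf c)
    (tt c T1 T2) E
  have h3 : (σ : OM n d k →+* OM n d k).comp (algebraMap k (OM n d k)) =
      algebraMap k (OM n d k) := by
    ext t; exact hσ.1 t
  have h4 : (fun a => (σ : OM n d k →+* OM n d k) (genf c a)) = conj (im A) (im A') (genf c) := by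
    funext a; exact hσ.2 a
  have h5 : (σ : OM n d k →+* OM n d k) (tt c T1 T2) =
      (im A : Matrix (Fin n) (Fin n) (OM n d k)).det ^ b * tt c T1 T2 := by
    rw [im_det]
    exact sym_tt hB c A A' hA σ hσ hT h1
  rw [h3, h4, h5] at h2
  rw [psi_act hB _ _ _ _ _ _ (im A) (im A') _ (im_mul A A' hA) hR]
  exact h2

theorem psi_gen_aux (hB : S_BASE.{u}) {L O : Type u} [Field L] [Field O] (κL : k →+* L)
    (κO : k →+* O) (φ : L →+* O) (hκ : φ.comp κL = κO) (R : MvPolynomial (Rest n d) k) (N M : ℕ)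
    (hR : R.totalDegree < N) (f : Cf n d → L) (t1 t2 : L) (E : Matrix (Fin n) (Fin n) L)
    (hE : E.det ≠ 0) :
    psi κO R N M (fun a => φ (f a)) (φ t2 * (φ t1)⁻¹) (E.map φ) =
      φ (eval₂ κL (fun ρ => conj E E⁻¹ f ρ.1) R * E.det ^ N / (t1 / t2) ^ M) := by
  have h1 := psi_map hB κL φ R N M f (t2 * t1⁻¹) E
  rw [hκ, map_mul, map_inv₀] at h1
  rw [← h1, psi_inv _ _ _ _ _ _ _ hE hR, div_eq_mul_inv _ ((t1 / t2) ^ M), ← inv_pow, inv_div,
    div_eq_mul_inv]

theorem gen_pt (hB : S_BASE.{u}) [Infinite (LL n d k)] (c : Cf n d → k) (R : MvPolynomial (Rest n d) k) :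
    eval₂ (algebraMap k (LL n d k)) (fun ρ : Rest n d => conj (genE n d k) (genE n d k)⁻¹
      (genfL c) ρ.1) R = algebraMap (PP n d k) (LL n d k) (rename Sum.inr R) := by
  have h5 : conj (genE n d k) (genE n d k)⁻¹ (genfL c) = geny c := by
    unfold genfL
    rw [conj_conj hB, Matrix.nonsing_inv_mul _ (isUnit_iff_ne_zero.2 det_genE), conj_one hB]
  have h6 : (fun ρ : Rest n d => conj (genE n d k) (genE n d k)⁻¹ (genfL c) ρ.1) =
      fun ρ => algebraMap (PP n d k) (LL n d k) (X (Sum.inr ρ)) := by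
    funext ρ
    rw [h5]
    unfold geny glue
    rw [dif_neg ρ.2]
  have h8 : ∀ q : PP n d k, algebraMap (PP n d k) (LL n d k) q =
      eval₂ (algebraMap k (LL n d k)) (fun x => algebraMap (PP n d k) (LL n d k) (X x)) q := by
    intro q
    have h9 := comp_aeval_apply (R := k) (X : _ → PP n d k)
      (IsScalarTower.toAlgHom k (PP n d k) (LL n d k)) q
    rw [aeval_X_left_apply] at h9
    exact h9
  rw [h6, h8, eval₂_rename]
  rfl

theorem psi_gen (hB : S_BASE.{u}) [Infinite (LL n d k)] (c : Cf n d → k)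
    (R : MvPolynomial (Rest n d) k) (N M : ℕ) (hR : R.totalDegree < N) (T1 T2 : Pol n d k) :
    psi (algebraMap k (OM n d k)) R N M (genf c) (tt c T1 T2) (genO n d k) =
      algebraMap (LL n d k) (OM n d k) (algebraMap (PP n d k) (LL n d k) (rename Sum.inr R) *
        (genE n d k).det ^ N / (theta c T1 / theta c T2) ^ M) := by
  have h2 : (algebraMap (LL n d k) (OM n d k)).comp (algebraMap k (LL n d k)) =
      algebraMap k (OM n d k) := (IsScalarTower.algebraMap_eq k (LL n d k) (OM n d k)).symm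
  have h1 := psi_gen_aux hB (algebraMap k (LL n d k)) (algebraMap k (OM n d k))
    (algebraMap (LL n d k) (OM n d k)) h2 R N M hR (genfL c) (theta c T1) (theta c T2)
    (genE n d k) det_genE
  rw [gen_pt hB c R] at h1
  exact h1

theorem semi_zero {P Q : Pol n d k} (h : Semi 0 P Q) : Invt P Q := by
  intro A A' hA c
  have h1 := h A A' hA c
  rw [pow_zero, one_mul] at h1
  exact h1

/-- PSI. -/
theorem t_PSI (hB : S_BASE.{u}) (hS : S_SOLI.{u}) (hF : S_FINS.{u}) (hN : S_NDG.{u})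
    (hD : S_DESC.{u}) (hP : S_PLACE.{u}) (hO : S_OVP.{u}) (hU : S_UNIQ.{u}) : S_PSI.{u} := by
  intro k _ _ _ n d hn hd c w hc hTc hy hTy hScal b T1 T2 hb hSemi hc1 hc2 hy1 hy2
  classical
  have hinfk : Infinite k := inferInstance
  have hcharL : CharZero (LL n d k) := charZero_of_injective_algebraMap
    (algebraMap k (LL n d k)).injective
  have hcharO : CharZero (OM n d k) := charZero_of_injective_algebraMap
    (algebraMap k (OM n d k)).injective
  have hinfL : Infinite (LL n d k) := inferInstance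
  have hinfO : Infinite (OM n d k) := inferInstance
  obtain ⟨hstr, hintc⟩ := hS k n d hd c c hTc hc
  obtain ⟨_, hinty⟩ := hS k n d hd c (glue c w) hTc hy
  have hZ := sol_fin hF hd c hstr
  have hstr0 : Strong (glue c w) := hN k k (RingHom.id k) (fun x => ⟨x, rfl⟩) n d (glue c w) hy
  have hZ0 := hF k n d hd (glue c w) hstr0 (Matrix.of fun j i => ev c (bas i) j)
  refine ⟨((hZ0.toFinset.filter fun E => E.det ≠ 0).image
    fun E => rest (conj E E⁻¹ (glue c w))).erase w, Finset.notMem_erase _ _, ?_⟩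
  intro R M hRbad hRw hdeg
  obtain ⟨pl⟩ := hP k n d w
  have hle := ov_le hO c w pl
  obtain ⟨hT0, htm, htv⟩ := tt_mem hO c w pl T1 T2 hy1
  have hsm : ∀ E, Sol c E → ∀ l i, E l i ∈ pl.ring := fun E hE l i =>
    int_mem pl _ hle _ (hinty E hE l i)
  set ps : Matrix (Fin n) (Fin n) (OM n d k) → OM n d k := fun E =>
    psi (algebraMap k (OM n d k)) R (b * M) M (genf c) (tt c T1 T2) E with hps
  set Θ : Finset (OM n d k) := hZ.toFinset.image ps with hΘ
  have hmemΘ : ∀ s ∈ Θ, ∃ E, Sol c E ∧ ps E = s := by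
    intro s hs
    obtain ⟨E, hE, he⟩ := Finset.mem_image.1 hs
    exact ⟨E, (hZ.mem_toFinset.1 hE), he⟩
  have hmem : ∀ E, Sol c E → ps E ∈ Θ := fun E hE =>
    Finset.mem_image.2 ⟨E, hZ.mem_toFinset.2 hE, rfl⟩
  have hic1 : ∀ s ∈ Θ, s ∈ ic (Ov c c) := by
    intro s hs
    obtain ⟨E, hE, rfl⟩ := hmemΘ s hs
    exact psi_int hB c c R _ _ T1 T2 hc1 E (hintc E hE)
  have hic2 : ∀ s ∈ Θ, s ∈ ic (Ov c (glue c w)) := by
    intro s hs
    obtain ⟨E, hE, rfl⟩ := hmemΘ s hs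
    exact psi_int hB c (glue c w) R _ _ T1 T2 hy1 E (hinty E hE)
  have hplΘ : ∀ s ∈ Θ, s ∈ pl.ring := fun s hs => int_mem pl _ hle _ (hic2 s hs)
  have hdesc : ∀ i : ℕ, ∃ P Q : Pol n d k, Semi 0 P Q ∧ eval c Q ≠ 0 ∧ eval (glue c w) Q ≠ 0 ∧
      (pol Θ).coeff i * thetaO c Q = thetaO c P := by
    intro i
    refine hD k n d hd c hTc c (glue c w) 0 _ ?_ (pol_coeff_mem _ Θ hic1 i)
      (pol_coeff_mem _ Θ hic2 i)
    intro A A' σ hA hσ
    rw [pow_zero, one_mul]
    refine pol_fix σ Θ ?_ i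
    intro s hs
    obtain ⟨E, hE, rfl⟩ := hmemΘ s hs
    have h1 := psi_sym hB c R b M hdeg T1 T2 hSemi hT0 A A' hA σ hσ E
    show σ (ps E) ∈ Θ
    have h2 : σ (ps E) = ps (im A * E.map σ) := h1
    rw [h2]
    exact hmem _ (sol_act hB c A A' hA σ hσ E hE)
  choose P Q hPQ using hdesc
  have hgenΘ : ps (genO n d k) ∈ Θ := hmem _ (sol_gen hB c)
  have hQ0 : ∀ i, thetaO c (Q i) ≠ 0 := by
    intro i h0
    apply (hPQ i).2.2.1
    obtain ⟨h1, h2, _⟩ := hO k n d c w pl (Q i)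
    rw [← h2]
    have : (⟨thetaO c (Q i), h1⟩ : pl.ring) = 0 := Subtype.ext h0
    rw [this, map_zero]
  have hcoefO : ∀ i, (pol Θ).coeff i =
      algebraMap (LL n d k) (OM n d k) (theta c (P i) / theta c (Q i)) := by
    intro i
    have e1 : algebraMap (LL n d k) (OM n d k) (theta c (Q i)) = thetaO c (Q i) := rfl
    have e2 : algebraMap (LL n d k) (OM n d k) (theta c (P i)) = thetaO c (P i) := rfl
    rw [map_div₀, e1, e2, eq_div_iff (hQ0 i)]
    exact (hPQ i).2.2.2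
  have hcoefk : ∀ i, pl.hom ⟨(pol Θ).coeff i, pol_coeff_mem pl.ring Θ hplΘ i⟩ =
      eval (glue c w) (P i) / eval (glue c w) (Q i) := by
    intro i
    obtain ⟨q1, q2, _⟩ := hO k n d c w pl (Q i)
    obtain ⟨p1, p2, _⟩ := hO k n d c w pl (P i)
    rw [eq_div_iff (hPQ i).2.2.1, ← q2, ← p2, ← map_mul]
    congr 1
    exact Subtype.ext (hPQ i).2.2.2
  refine ⟨Θ.card, fun i => P i, fun i => Q i, fun i => ⟨semi_zero (hPQ i).1, (hPQ i).2.1,
    (hPQ i).2.2.1⟩, ?_, ?_⟩
  · intro ψ hψ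
    apply (algebraMap (LL n d k) (OM n d k)).injective
    have h1 := pol_root Θ _ hgenΘ
    rw [pol_eval] at h1
    have h2 : ps (genO n d k) = algebraMap (LL n d k) (OM n d k) ψ := by
      rw [hψ]
      exact psi_gen hB c R (b * M) M hdeg T1 T2
    rw [h2] at h1
    rw [map_add, map_pow, map_zero, map_sum, ← h1]
    congr 1
    refine Finset.sum_congr rfl fun i _ => ?_
    rw [map_mul, map_pow, hcoefO]
  · intro ψ₀ hψ₀
    have htv0 : pl.hom ⟨tt c T1 T2, htm⟩ ≠ 0 := by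
      rw [htv]; exact div_ne_zero hy2 hy1
    have hsep : ∀ E, Sol c E → ∀ (h1 : ps E ∈ pl.ring) (h2 : ps (genO n d k) ∈ pl.ring),
        pl.hom ⟨_, h2⟩ = ψ₀ ∧ (ps E ≠ ps (genO n d k) → pl.hom ⟨_, h1⟩ ≠ pl.hom ⟨_, h2⟩) := by
      intro E hE h1 h2
      have hbad : ∀ E0 : Matrix (Fin n) (Fin n) k,
          (∀ i, ev (glue c w) (fun l => E0 l i) = E0 *ᵥ ev c (bas i)) → E0.det ≠ 0 →
          rest (conj E0 E0⁻¹ (glue c w)) ≠ w → eval (rest (conj E0 E0⁻¹ (glue c w))) R = 0 := by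
        intro E0 hE0 hdet hne
        apply hRbad
        refine Finset.mem_erase.2 ⟨hne, Finset.mem_image.2 ⟨E0, Finset.mem_filter.2 ⟨?_, hdet⟩,
          rfl⟩⟩
        exact hZ0.mem_toFinset.2 hE0
      have hψval : eval w R * pl.hom ⟨tt c T1 T2, htm⟩ ^ M = ψ₀ := by
        rw [hψ₀, htv, div_eq_mul_inv _ ((eval (glue c w) T1 / eval (glue c w) T2) ^ M), ← inv_pow,
          inv_div]
      by_cases hne : ps E = ps (genO n d k)
      · refine ⟨?_, fun h => absurd hne h⟩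
        obtain ⟨g1, g2⟩ := spec_psi hB hO c w pl R (b * M) M _ htm (genO n d k)
          (fun l i => (genO_mem w pl l i).1)
        have hone : (Matrix.of fun l i => pl.hom ⟨genO n d k l i, (genO_mem w pl l i).1⟩) =
            (1 : Matrix (Fin n) (Fin n) k) := by
          ext l i
          rw [Matrix.of_apply, (genO_mem w pl l i).2, Matrix.one_apply]
        have hyy : (fun ρ : Rest n d => glue c w ρ.1) = w := by
          funext ρ
          unfold glue
          rw [dif_neg ρ.2]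
        rw [show (⟨_, h2⟩ : pl.ring) = ⟨_, g1⟩ from rfl, g2, hone,
          psi_inv (RingHom.id k) R (b * M) M (glue c w) _ 1
            (by rw [Matrix.det_one]; exact one_ne_zero) hdeg,
          Matrix.det_one, one_pow, mul_one, inv_one, conj_one hB, hyy, ← hψval]
        rfl
      · obtain ⟨s1, s2⟩ := sep hB hO hU (by omega) hd c w hc hTy hScal pl R (b * M) M hdeg hbad hRw
          _ htm htv0 E hE (hsm E hE) hne h1 h2
        exact ⟨s1.trans hψval, fun _ => s2⟩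
    refine pol_der pl.ring pl.hom Θ hplΘ (ps (genO n d k)) hgenΘ ?_
      (fun i => eval (glue c w) (P i) / eval (glue c w) (Q i)) (fun i => hcoefk i) ψ₀ ?_
    · intro s hs hne
      obtain ⟨E, hE, rfl⟩ := hmemΘ s hs
      exact (hsep E hE _ _).2 hne
    · exact (hsep _ (sol_gen hB c) (hplΘ _ hgenΘ) (hplΘ _ hgenΘ)).1.symm

end Pool.Agent.D0H84.SM
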