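import Pool.Agent.D0H84.SM.Common

set_option autoImplicit false

/-!
# Separation of the conjugates of `ψ` at a place (project SM, MP_807a54_ag)
-/

namespace Pool.Agent.D0H84.SM

open MvPolynomial Matrix Pool.Agent.D0H90.SM

universe u

variable {k : Type u} [Field k] {n d : ℕ}

theorem psi_scal (hB : S_BASE.{u}) {Ω : Type u} [Field Ω] [Infinite Ω]
    (κ : k →+* Ω) (R : MvPolynomial (Rest n d) k) (N M : ℕ) (f : Cf n d → Ω) (t r : Ω)
    (E : Matrix (Fin n) (Fin n) Ω) (hE : E.det ≠ 0) (hR : R.totalDegree < N) (hr : r ≠ 0)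
    (hrd : r ^ d = r) :
    psi κ R N M f t (r • E) = (r ^ n) ^ N * psi κ R N M f t E := by
  have hdet : (r • E).det = r ^ n * E.det := by
    rw [Matrix.det_smul, Fintype.card_fin]
  have hdet0 : (r • E).det ≠ 0 := by
    rw [hdet]; exact mul_ne_zero (pow_ne_zero n hr) hE
  rw [psi_inv κ R N M f t (r • E) hdet0 hR, psi_inv κ R N M f t E hE hR]
  have hconj : conj (r • E) (r • E)⁻¹ f = conj E E⁻¹ f := by
    refine hB.2.1 Ω n d _ _ fun x => ?_
    rw [hB.1, hB.1]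
    have hinv : (r • E)⁻¹ = r⁻¹ • E⁻¹ := by
      apply Matrix.inv_eq_left_inv
      rw [Matrix.smul_mul, Matrix.mul_smul, smul_smul, inv_mul_cancel₀ hr, one_smul,
        Matrix.nonsing_inv_mul _ (isUnit_iff_ne_zero.2 hE)]
    have hx : (r • E) *ᵥ x = r • (E *ᵥ x) := Matrix.smul_mulVec _ _ _
    rw [hinv, hx, ev_smul, hrd, Matrix.smul_mulVec, Matrix.mulVec_smul, smul_smul,
      inv_mul_cancel₀ hr, one_smul]
  rw [hconj, hdet, mul_pow]
  ring

theorem genO_mem (w : Rest n d → k) (pl : Place w) (l i : Fin n) :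
    ∃ h : genO n d k l i ∈ pl.ring, pl.hom ⟨_, h⟩ = if l = i then 1 else 0 := by
  refine ⟨pl.mem (X (Sum.inl (l, i))), ?_⟩
  have h := pl.eq (X (Sum.inl (l, i)))
  rw [evalOne, eval_X] at h
  exact h

theorem det_genO : (genO n d k).det ≠ 0 := by
  have h : (genO n d k).det = algebraMap (LL n d k) (OM n d k) (genE n d k).det :=
    (RingHom.map_det _ _).symm
  rw [h]
  exact (map_ne_zero_iff _ (algebraMap (LL n d k) (OM n d k)).injective).2 det_genE

theorem spec_sol (hB : S_BASE.{u}) (hO : S_OVP.{u}) [CharZero k] (c : Cf n d → k)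
    (w : Rest n d → k) (pl : Place w) (E : Matrix (Fin n) (Fin n) (OM n d k)) (hE : Sol c E)
    (hEm : ∀ l i, E l i ∈ pl.ring) (i : Fin n) :
    ev (glue c w) (fun l => pl.hom ⟨E l i, hEm l i⟩) =
      (Matrix.of fun l i => pl.hom ⟨E l i, hEm l i⟩) *ᵥ ev c (bas i) := by
  have h1 := ev_map hB pl.ring.subtype (fun a => ⟨genf c a, (genf_mem hO c w pl a).1⟩)
    (fun l => (⟨E l i, hEm l i⟩ : pl.ring))
  have h2 := ev_map hB pl.hom (fun a => ⟨genf c a, (genf_mem hO c w pl a).1⟩)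
    (fun l => (⟨E l i, hEm l i⟩ : pl.ring))
  have h3 : (fun a => pl.hom ⟨genf c a, (genf_mem hO c w pl a).1⟩) = glue c w := by
    funext a; exact (genf_mem hO c w pl a).2
  rw [h3] at h2
  rw [h2]
  have h4 : ev (fun a => (⟨genf c a, (genf_mem hO c w pl a).1⟩ : pl.ring))
      (fun l => (⟨E l i, hEm l i⟩ : pl.ring)) =
      (Matrix.of fun l i => (⟨E l i, hEm l i⟩ : pl.ring)) *ᵥ fun j => kap pl (ev c (bas i) j) := by
    funext j
    apply Subtype.ext
    have h5 := congrFun h1 j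
    have h6 := congrFun (hE i) j
    have h7 : ev (genf c) (fun l => E l i) j = (ev (fun a =>
      (⟨genf c a, (genf_mem hO c w pl a).1⟩ : pl.ring)) (fun l => (⟨E l i, hEm l i⟩ : pl.ring)) j :
        pl.ring).1 := h5
    rw [← h7, h6]
    simp only [Matrix.mulVec, dotProduct, Matrix.of_apply]
    rw [AddSubmonoidClass.coe_finsetSum]
    rfl
  rw [h4]
  funext j
  simp only [Matrix.mulVec, dotProduct, Matrix.of_apply, map_sum, map_mul]
  refine Finset.sum_congr rfl fun l _ => ?_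
  congr 1
  exact congrFun (congrArg DFunLike.coe (kap_hom pl)) _

theorem sep (hB : S_BASE.{u}) (hO : S_OVP.{u}) (hU : S_UNIQ.{u}) [CharZero k]
    (hn : 1 ≤ n) (hd : 2 ≤ d) (c : Cf n d → k)
    (w : Rest n d → k) (hc : Nondeg c) (hTy : Transv (glue c w))
    (hScal : ∀ A A' : Matrix (Fin n) (Fin n) k, A * A' = 1 → Fixes A (glue c w) →
        ∃ r : k, A = r • (1 : Matrix (Fin n) (Fin n) k))
    (pl : Place w) (R : MvPolynomial (Rest n d) k) (N M : ℕ) (hR : R.totalDegree < N)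
    (hbad : ∀ E0 : Matrix (Fin n) (Fin n) k,
      (∀ i, ev (glue c w) (fun l => E0 l i) = E0 *ᵥ ev c (bas i)) → E0.det ≠ 0 →
      rest (conj E0 E0⁻¹ (glue c w)) ≠ w → eval (rest (conj E0 E0⁻¹ (glue c w))) R = 0)
    (hRw : eval w R ≠ 0) (t : OM n d k) (ht : t ∈ pl.ring) (ht0 : pl.hom ⟨t, ht⟩ ≠ 0)
    (E : Matrix (Fin n) (Fin n) (OM n d k)) (hE : Sol c E) (hEm : ∀ l i, E l i ∈ pl.ring)
    (hne : psi (algebraMap k (OM n d k)) R N M (genf c) t E ≠
      psi (algebraMap k (OM n d k)) R N M (genf c) t (genO n d k))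
    (h1 : psi (algebraMap k (OM n d k)) R N M (genf c) t E ∈ pl.ring)
    (h2 : psi (algebraMap k (OM n d k)) R N M (genf c) t (genO n d k) ∈ pl.ring) :
    pl.hom ⟨_, h2⟩ = eval w R * pl.hom ⟨t, ht⟩ ^ M ∧ pl.hom ⟨_, h1⟩ ≠ pl.hom ⟨_, h2⟩ := by
  classical
  set tb := pl.hom ⟨t, ht⟩ with htb
  -- the value at the generic matrix
  obtain ⟨g1, g2⟩ := spec_psi hB hO c w pl R N M t ht (genO n d k) (fun l i => (genO_mem w pl l i).1)
  have hone : (Matrix.of fun l i => pl.hom ⟨genO n d k l i, (genO_mem w pl l i).1⟩) =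
      (1 : Matrix (Fin n) (Fin n) k) := by
    ext l i
    rw [Matrix.of_apply, (genO_mem w pl l i).2, Matrix.one_apply]
  have hy : (fun ρ : Rest n d => glue c w ρ.1) = w := by
    funext ρ
    unfold glue
    rw [dif_neg ρ.2]
  have hval : pl.hom ⟨_, h2⟩ = eval w R * tb ^ M := by
    rw [show (⟨_, h2⟩ : pl.ring) = ⟨_, g1⟩ from rfl, g2, hone,
      psi_inv (RingHom.id k) R N M (glue c w) tb 1 (by rw [Matrix.det_one]; exact one_ne_zero) hR,
      Matrix.det_one, one_pow, mul_one, inv_one, conj_one hB, hy]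
    rfl
  refine ⟨hval, ?_⟩
  have hval0 : eval w R * tb ^ M ≠ 0 := mul_ne_zero hRw (pow_ne_zero M ht0)
  rw [hval]
  obtain ⟨e1, e2⟩ := spec_psi hB hO c w pl R N M t ht E hEm
  have hsp := spec_sol hB hO c w pl E hE hEm
  set Eb : Matrix (Fin n) (Fin n) k := Matrix.of fun l i => pl.hom ⟨E l i, hEm l i⟩ with hEb
  rw [show (⟨_, h1⟩ : pl.ring) = ⟨_, e1⟩ from rfl, e2]
  by_cases hdet : Eb.det = 0
  · have : psi (RingHom.id k) R N M (glue c w) tb Eb = 0 := by
      unfold psi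
      rw [hdet, Rh_zero _ _ _ _ hR, zero_mul]
    rw [this]
    exact fun h => hval0 h.symm
  rw [psi_inv (RingHom.id k) R N M (glue c w) tb Eb hdet hR]
  have hspec : ∀ i, ev (glue c w) (fun l => Eb l i) = Eb *ᵥ ev c (bas i) := hsp
  by_cases hz : rest (conj Eb Eb⁻¹ (glue c w)) = w
  swap
  · have h3 := hbad Eb hspec hdet hz
    have h4 : eval₂ (RingHom.id k) (fun ρ : Rest n d => conj Eb Eb⁻¹ (glue c w) ρ.1) R = 0 := h3
    rw [h4, zero_mul, zero_mul]
    exact fun h => hval0 h.symm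
  -- the fixed case
  have hu : IsUnit Eb.det := isUnit_iff_ne_zero.2 hdet
  have hcol : ∀ i, (Eb *ᵥ bas i) = fun l => Eb l i := by
    intro i; rw [Matrix.mulVec_single_one]; rfl
  have hfix : conj Eb Eb⁻¹ (glue c w) = glue c w := by
    funext a
    by_cases ha : ∃ i, (a.2.1 i : ℕ) = d
    · obtain ⟨i, hi⟩ := ha
      have h3 := ev_bas (conj Eb Eb⁻¹ (glue c w)) i a.1 a.2 hi
      have h4 := ev_bas c i a.1 a.2 hi
      rw [hB.1, hcol, hspec, Matrix.mulVec_mulVec, Matrix.nonsing_inv_mul _ hu,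
        Matrix.one_mulVec] at h3
      have h5 : glue c w a = c a := by
        unfold glue; rw [dif_pos ⟨i, hi⟩]
      rw [h5]
      exact h3.symm.trans h4
    · have h3 := congrFun hz ⟨a, ha⟩
      have h5 : glue c w a = w ⟨a, ha⟩ := by
        unfold glue; rw [dif_neg ha]
      rw [h5]
      exact h3
  have hFix : Fixes Eb (glue c w) := by
    intro x
    have h3 := hB.1 k n d (glue c w) Eb Eb⁻¹ x
    rw [hfix] at h3
    rw [h3, Matrix.mulVec_mulVec, Matrix.mul_nonsing_inv _ hu, Matrix.one_mulVec]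
  obtain ⟨r, hr⟩ := hScal Eb Eb⁻¹ (Matrix.mul_nonsing_inv _ hu) hFix
  have hr0 : r ≠ 0 := by
    rintro rfl
    apply hdet
    rw [hr, zero_smul]
    have : Nonempty (Fin n) := ⟨⟨0, hn⟩⟩
    exact Matrix.det_zero
  have hrd : r ^ d = r := by
    have h3 := hspec ⟨0, hn⟩
    have h4 : (fun l => Eb l ⟨0, hn⟩) = r • (bas ⟨0, hn⟩ : Fin n → k) := by
      rw [← hcol, hr, Matrix.smul_mulVec, Matrix.one_mulVec]
    rw [h4, ev_smul, ev_glue, hr, Matrix.smul_mulVec, Matrix.one_mulVec] at h3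
    have h5 : ev c (bas ⟨0, hn⟩ : Fin n → k) ≠ 0 := by
      intro h0
      have h6 := hc _ h0
      have h7 := congrFun h6 ⟨0, hn⟩
      have h8 : (bas ⟨0, hn⟩ : Fin n → k) ⟨0, hn⟩ = 1 := Pi.single_eq_same _ _
      rw [h8] at h7
      exact one_ne_zero h7
    obtain ⟨j, hj⟩ := Function.ne_iff.1 h5
    have h6 := congrFun h3 j
    simp only [Pi.smul_apply, smul_eq_mul] at h6
    exact mul_right_cancel₀ hj h6
  -- E = r genO
  set ρ : OM n d k := algebraMap k (OM n d k) r with hρ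
  have hρ0 : ρ ≠ 0 := by
    rw [hρ]; exact (map_ne_zero_iff _ (algebraMap k (OM n d k)).injective).2 hr0
  have hρd : ρ ^ d = ρ := by rw [hρ, ← map_pow, hrd]
  have hρi : (ρ⁻¹) ^ d = ρ⁻¹ := by rw [inv_pow, hρd]
  have hri : ρ⁻¹ = algebraMap k (OM n d k) r⁻¹ := by rw [hρ, map_inv₀]
  have hSol : Sol c (ρ⁻¹ • E) := by
    intro i
    have h3 : (fun l => (ρ⁻¹ • E) l i) = ρ⁻¹ • fun l => E l i := rfl
    rw [h3, ev_smul, hρi, hE i, Matrix.smul_mulVec]
  have hmem : ∀ l i, (ρ⁻¹ • E) l i ∈ pl.ring := by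
    intro l i
    rw [Matrix.smul_apply, smul_eq_mul, hri]
    exact pl.ring.mul_mem (const_mem pl r⁻¹).1 (hEm l i)
  have hspc : ∀ l i, pl.hom ⟨_, hmem l i⟩ = if l = i then 1 else 0 := by
    intro l i
    have h3 : (⟨(ρ⁻¹ • E) l i, hmem l i⟩ : pl.ring) =
        ⟨algebraMap k (OM n d k) r⁻¹, (const_mem pl r⁻¹).1⟩ * ⟨E l i, hEm l i⟩ := by
      apply Subtype.ext
      show (ρ⁻¹ • E) l i = algebraMap k (OM n d k) r⁻¹ * E l i
      rw [Matrix.smul_apply, smul_eq_mul, hri]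
    rw [h3, map_mul, (const_mem pl r⁻¹).2]
    have h4 : pl.hom ⟨E l i, hEm l i⟩ = Eb l i := rfl
    rw [h4, hr, Matrix.smul_apply, smul_eq_mul, ← mul_assoc, inv_mul_cancel₀ hr0, one_mul,
      Matrix.one_apply]
  have hEq := hU k n d hd c w hTy pl (ρ⁻¹ • E) (genO n d k) hSol (sol_gen hB c) hmem
    (fun l i => (genO_mem w pl l i).1) hspc (fun l i => (genO_mem w pl l i).2)
  have hEr : E = ρ • genO n d k := by
    rw [← hEq, smul_smul, mul_inv_cancel₀ hρ0, one_smul]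
  have : Infinite (OM n d k) := by
    have : CharZero (OM n d k) := charZero_of_injective_algebraMap (algebraMap k (OM n d k)).injective
    infer_instance
  have hps := psi_scal hB (algebraMap k (OM n d k)) R N M (genf c) t ρ (genO n d k) det_genO hR
    hρ0 hρd
  rw [← hEr] at hps
  have hq : (r ^ n) ^ N ≠ 1 := by
    intro h0
    apply hne
    rw [hps, hρ, ← map_pow, ← map_pow, h0, map_one, one_mul]
  have hfin : pl.hom ⟨_, h1⟩ = (r ^ n) ^ N * (eval w R * tb ^ M) := by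
    rw [← hval]
    have h3 : (⟨_, h1⟩ : pl.ring) = ⟨algebraMap k (OM n d k) ((r ^ n) ^ N),
        (const_mem pl ((r ^ n) ^ N)).1⟩ * ⟨_, h2⟩ := by
      apply Subtype.ext
      show psi (algebraMap k (OM n d k)) R N M (genf c) t E =
        algebraMap k (OM n d k) ((r ^ n) ^ N) * psi (algebraMap k (OM n d k)) R N M (genf c) t
          (genO n d k)
      rw [hps, hρ, map_pow, map_pow]
    rw [h3, map_mul, (const_mem pl ((r ^ n) ^ N)).2]
  have hlhs : eval₂ (RingHom.id k) (fun ρ : Rest n d => conj Eb Eb⁻¹ (glue c w) ρ.1) R *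
      Eb.det ^ N * tb ^ M = pl.hom ⟨_, h1⟩ := by
    rw [show (⟨_, h1⟩ : pl.ring) = ⟨_, e1⟩ from rfl, e2,
      psi_inv (RingHom.id k) R N M (glue c w) tb Eb hdet hR]
  rw [hlhs, hfin]
  intro h0
  apply hq
  exact mul_right_cancel₀ hval0 (h0.trans (one_mul _).symm)

end Pool.Agent.D0H84.SM
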