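import Pool.Agent.D0H84.SM.Sep

set_option autoImplicit false

/-!
# Symmetric functions of the conjugates (project SM, MP_807a54_ag)
-/

namespace Pool.Agent.D0H84.SM

open Pool.Agent.D0H90.SM

universe u

/-- `∏ (X - s)`. -/
noncomputable def pol {K : Type u} [CommRing K] (Θ : Finset K) : Polynomial K :=
  ∏ s ∈ Θ, (Polynomial.X - Polynomial.C s)

theorem pol_coeff_mem {K : Type u} [CommRing K] (S : Subring K) (Θ : Finset K)
    (h : ∀ s ∈ Θ, s ∈ S) (i : ℕ) : (pol Θ).coeff i ∈ S := by
  classical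
  unfold pol
  revert i
  induction Θ using Finset.induction_on with
  | empty =>
    intro i
    rw [Finset.prod_empty, Polynomial.coeff_one]
    split_ifs
    · exact S.one_mem
    · exact S.zero_mem
  | insert a Θ ha ih =>
    intro i
    rw [Finset.prod_insert ha, sub_mul, Polynomial.coeff_sub, Polynomial.coeff_C_mul]
    have ih' := ih fun s hs => h s (Finset.mem_insert_of_mem hs)
    refine S.sub_mem ?_ (S.mul_mem (h a (Finset.mem_insert_self a Θ)) (ih' i))
    cases i with
    | zero => rw [Polynomial.coeff_X_mul_zero]; exact S.zero_mem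
    | succ j => rw [Polynomial.coeff_X_mul]; exact ih' j

theorem pol_map {K L : Type u} [CommRing K] [CommRing L] (φ : K →+* L)
    (Θ : Finset K) : (pol Θ).map φ = ∏ s ∈ Θ, (Polynomial.X - Polynomial.C (φ s)) := by
  unfold pol
  rw [Polynomial.map_prod]
  refine Finset.prod_congr rfl fun s _ => ?_
  rw [Polynomial.map_sub, Polynomial.map_X, Polynomial.map_C]

theorem pol_fix {K : Type u} [CommRing K] (σ : K ≃+* K) (Θ : Finset K)
    (h : ∀ s ∈ Θ, σ s ∈ Θ) (i : ℕ) : σ ((pol Θ).coeff i) = (pol Θ).coeff i := by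
  classical
  have h1 : Θ.image σ = Θ := by
    apply Finset.eq_of_subset_of_card_le
    · intro x hx
      obtain ⟨s, hs, rfl⟩ := Finset.mem_image.1 hx
      exact h s hs
    · rw [Finset.card_image_of_injective _ σ.injective]
  have h2 : (pol Θ).map (σ : K →+* K) = pol Θ := by
    rw [pol_map]
    conv_rhs => rw [pol, ← h1]
    rw [Finset.prod_image fun x _ y _ hxy => σ.injective hxy]
    rfl
  have h3 := congrArg (fun p => Polynomial.coeff p i) h2
  simp only [Polynomial.coeff_map] at h3
  exact h3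

theorem pol_monic {K : Type u} [CommRing K] (Θ : Finset K) : (pol Θ).Monic :=
  Polynomial.monic_prod_of_monic _ _ fun s _ => Polynomial.monic_X_sub_C s

theorem pol_deg {K : Type u} [CommRing K] [Nontrivial K] (Θ : Finset K) :
    (pol Θ).natDegree = Θ.card := by
  unfold pol
  rw [Polynomial.natDegree_prod_of_monic _ _ fun s _ => Polynomial.monic_X_sub_C s]
  simp

theorem pol_eval {K : Type u} [CommRing K] [Nontrivial K] (Θ : Finset K) (x : K) :
    (pol Θ).eval x = x ^ Θ.card + ∑ i : Fin Θ.card, (pol Θ).coeff i * x ^ (i : ℕ) := by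
  conv_lhs => rw [(pol_monic Θ).as_sum, pol_deg]
  rw [Polynomial.eval_add, Polynomial.eval_pow, Polynomial.eval_X, Polynomial.eval_finset_sum,
    Finset.sum_range]
  congr 1
  refine Finset.sum_congr rfl fun i _ => ?_
  rw [Polynomial.eval_mul, Polynomial.eval_C, Polynomial.eval_pow, Polynomial.eval_X]

theorem pol_root {K : Type u} [CommRing K] (Θ : Finset K) (x : K) (hx : x ∈ Θ) :
    (pol Θ).eval x = 0 := by
  unfold pol
  rw [Polynomial.eval_prod]
  refine Finset.prod_eq_zero hx ?_
  rw [Polynomial.eval_sub, Polynomial.eval_X, Polynomial.eval_C, sub_self]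

/-- The derivative of the reduction at the reduction of a simple root. -/
theorem pol_der {K k : Type u} [CommRing K] [Field k] (Oo : Subring K)
    (φ : Oo →+* k) (Θ : Finset K) (hΘ : ∀ s ∈ Θ, s ∈ Oo) (x : K) (hx : x ∈ Θ)
    (hsep : ∀ s (hs : s ∈ Θ), s ≠ x → φ ⟨s, hΘ s hs⟩ ≠ φ ⟨x, hΘ x hx⟩)
    (a : Fin Θ.card → k)
    (ha : ∀ i : Fin Θ.card, φ ⟨(pol Θ).coeff i, pol_coeff_mem Oo Θ hΘ i⟩ = a i)
    (y : k) (hy : y = φ ⟨x, hΘ x hx⟩) :
    (Θ.card : k) * y ^ (Θ.card - 1) + ∑ i : Fin Θ.card, ((i : ℕ) : k) * a i * y ^ ((i : ℕ) - 1) ≠ 0 := by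
  classical
  -- the polynomial over the subring
  have hcard : (Θ.attach).card = Θ.card := Finset.card_attach
  let Θ' : Finset Oo := Θ.attach.image fun s => ⟨s.1, hΘ s.1 s.2⟩
  have hinj : Function.Injective fun s : {s // s ∈ Θ} => (⟨s.1, hΘ s.1 s.2⟩ : Oo) := by
    intro s t hst
    apply Subtype.ext
    exact congrArg (fun z : Oo => (z : K)) hst
  have hmap : (pol Θ').map Oo.subtype = pol Θ := by
    rw [pol_map]
    unfold pol
    rw [Finset.prod_image fun s _ t _ hst => hinj hst]
    exact Finset.prod_attach Θ fun s => (Polynomial.X - Polynomial.C s)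
  have hcoef : ∀ i : ℕ, (pol Θ').coeff i = ⟨(pol Θ).coeff i, pol_coeff_mem Oo Θ hΘ i⟩ := by
    intro i
    apply Subtype.ext
    have h1 := congrArg (fun p => Polynomial.coeff p i) hmap
    simp only [Polynomial.coeff_map] at h1
    exact h1
  have hN : Nontrivial Oo := by
    refine ⟨⟨0, 1, fun h => ?_⟩⟩
    have := congrArg φ h
    rw [map_zero, map_one] at this
    exact zero_ne_one this
  have hc' : Θ'.card = Θ.card := by
    rw [Finset.card_image_of_injective _ hinj, hcard]
  -- its reduction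
  set q : Polynomial k := (pol Θ').map φ with hq
  have hq1 : q = Polynomial.X ^ Θ.card +
      ∑ i : Fin Θ.card, Polynomial.C (a i) * Polynomial.X ^ (i : ℕ) := by
    have h1 := (pol_monic Θ').as_sum
    rw [pol_deg, hc'] at h1
    rw [hq, h1, Polynomial.map_add, Polynomial.map_pow, Polynomial.map_X, Polynomial.map_sum,
      Finset.sum_range]
    congr 1
    refine Finset.sum_congr rfl fun i _ => ?_
    rw [Polynomial.map_mul, Polynomial.map_C, Polynomial.map_pow, Polynomial.map_X, hcoef, ha]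
  have hx' : (⟨x, hΘ x hx⟩ : Oo) ∈ Θ' :=
    Finset.mem_image.2 ⟨⟨x, hx⟩, Finset.mem_attach _ _, rfl⟩
  have hq2 : q = (Polynomial.X - Polynomial.C y) *
      ∏ s ∈ Θ'.erase ⟨x, hΘ x hx⟩, (Polynomial.X - Polynomial.C (φ s)) := by
    rw [hq, pol_map, ← Finset.mul_prod_erase Θ' _ hx', hy]
  have h1 : (Polynomial.derivative q).eval y =
      (∏ s ∈ Θ'.erase ⟨x, hΘ x hx⟩, (Polynomial.X - Polynomial.C (φ s)) : Polynomial k).eval y := by
    rw [hq2, Polynomial.derivative_mul, Polynomial.eval_add, Polynomial.eval_mul,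
      Polynomial.eval_mul, Polynomial.derivative_sub, Polynomial.derivative_X,
      Polynomial.derivative_C, sub_zero, Polynomial.eval_one, one_mul, Polynomial.eval_sub,
      Polynomial.eval_X, Polynomial.eval_C, sub_self, zero_mul, add_zero]
  have h2 : (Polynomial.derivative q).eval y ≠ 0 := by
    rw [h1, Polynomial.eval_prod]
    refine Finset.prod_ne_zero_iff.2 fun s hs => ?_
    rw [Polynomial.eval_sub, Polynomial.eval_X, Polynomial.eval_C, sub_ne_zero]
    obtain ⟨hs1, hs2⟩ := Finset.mem_erase.1 hs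
    obtain ⟨⟨s0, hs0⟩, _, rfl⟩ := Finset.mem_image.1 hs2
    rw [hy]
    refine (hsep s0 hs0 ?_).symm
    intro h0
    apply hs1
    exact Subtype.ext h0
  have h3 : (Polynomial.derivative q).eval y =
      (Θ.card : k) * y ^ (Θ.card - 1) + ∑ i : Fin Θ.card, ((i : ℕ) : k) * a i * y ^ ((i : ℕ) - 1) := by
    rw [hq1]
    simp only [Polynomial.derivative_add, Polynomial.derivative_sum, Polynomial.derivative_mul,
      Polynomial.derivative_C, Polynomial.derivative_X_pow, zero_mul, zero_add,
      Polynomial.eval_add, Polynomial.eval_finset_sum, Polynomial.eval_mul, Polynomial.eval_C,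
      Polynomial.eval_pow, Polynomial.eval_X]
    congr 1
    refine Finset.sum_congr rfl fun i _ => ?_
    ring
  rw [← h3]
  exact h2

end Pool.Agent.D0H84.SM
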